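import Pool.Agent.Q56.IC.Blich

/-!
# The integral of the test function
-/

set_option autoImplicit false

namespace Pool.Agent.Q56.IC

open MeasureTheory Finset

variable {n : ℕ}

/-- volume of the unit ball -/
noncomputable def VV (n : ℕ) : ℝ := √Real.pi ^ n / Real.Gamma (n / 2 + 1)

lemma VV_nonneg (n : ℕ) : 0 ≤ VV n := by
  unfold VV
  have : 0 < Real.Gamma ((n : ℝ) / 2 + 1) := Real.Gamma_pos_of_pos (by positivity)
  positivity

lemma vol_nq_lt (hn : 0 < n) {r : ℝ} (hr : 0 ≤ r) :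
    volume {z : Fin n → ℝ | nq z < r ^ 2} = ENNReal.ofReal r ^ n * ENNReal.ofReal (VV n) := by
  have : Nonempty (Fin n) := ⟨⟨0, hn⟩⟩
  have h1 : {z : Fin n → ℝ | nq z < r ^ 2} =
      (WithLp.toLp 2 : (Fin n → ℝ) → EuclideanSpace ℝ (Fin n)) ⁻¹' Metric.ball 0 r := by
    ext z
    simp only [Set.mem_ofPred_eq, Set.mem_preimage, Metric.mem_ball, dist_zero_right]
    rw [← sq_lt_sq₀ (norm_nonneg _) hr, EuclideanSpace.norm_sq_eq]
    unfold nq
    simp
  rw [h1, (PiLp.volume_preserving_toLp (Fin n)).measure_preimage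
    measurableSet_ball.nullMeasurableSet, EuclideanSpace.volume_ball]
  simp [VV]

lemma int_pow (n : ℕ) : ∫ t in (0 : ℝ)..1, √(1 - t) ^ n = 2 / (n + 2) := by
  have h1 : ∫ t in (0 : ℝ)..1, √(1 - t) ^ n = ∫ t in (0 : ℝ)..1, √t ^ n := by
    rw [intervalIntegral.integral_comp_sub_left (fun x => √x ^ n)]
    simp
  have h2 : ∫ t in (0 : ℝ)..1, √t ^ n = ∫ t in (0 : ℝ)..1, t ^ ((n : ℝ) / 2) := by
    refine intervalIntegral.integral_congr fun t ht => ?_
    rw [Set.uIcc_of_le zero_le_one] at ht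
    rw [Real.sqrt_eq_rpow, ← Real.rpow_natCast, ← Real.rpow_mul ht.1]
    congr 1
    ring
  rw [h1, h2, integral_rpow (Or.inl (by have : (0 : ℝ) ≤ n := by positivity
                                        linarith))]
  have : (n : ℝ) / 2 + 1 ≠ 0 := by positivity
  rw [Real.zero_rpow this, Real.one_rpow]
  field_simp
  ring

lemma lint_ge (hn : 0 < n) :
    ENNReal.ofReal (VV n * (2 / (n + 2))) ≤ ∫⁻ y : Fin n → ℝ, tf y := by
  have h1 : ∀ y : Fin n → ℝ, tf y = ENNReal.ofReal (max (1 - nq y) 0) := by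
    intro y
    unfold tf
    rw [ENNReal.ofReal_max, ENNReal.ofReal_zero]
    simp
  have hm : AEMeasurable (fun y : Fin n → ℝ => max (1 - nq y) 0) volume := by
    have := continuous_nq (n := n)
    exact (by fun_prop : Continuous fun y : Fin n → ℝ => max (1 - nq y) 0).aemeasurable
  simp_rw [h1]
  rw [lintegral_eq_lintegral_meas_lt (f := fun y : Fin n → ℝ => max (1 - nq y) 0) _ (Filter.Eventually.of_forall fun y => le_max_right _ _) hm]
  have h2 : ∫⁻ t in Set.Ioo (0 : ℝ) 1, ENNReal.ofReal (√(1 - t) ^ n * VV n) ≤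
      ∫⁻ t in Set.Ioi (0 : ℝ), volume {a : Fin n → ℝ | t < max (1 - nq a) 0} := by
    refine le_trans ?_ (lintegral_mono_set (show Set.Ioo (0 : ℝ) 1 ⊆ Set.Ioi 0 from Set.Ioo_subset_Ioi_self))
    refine le_of_eq (setLIntegral_congr_fun measurableSet_Ioo fun t ht => ?_)
    have e : {a : Fin n → ℝ | t < max (1 - nq a) 0} = {a : Fin n → ℝ | nq a < √(1 - t) ^ 2} := by
      ext a
      simp only [Set.mem_ofPred_eq]
      rw [Real.sq_sqrt (by linarith [ht.2]), lt_max_iff]
      constructor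
      · rintro (h | h)
        · linarith
        · linarith [ht.1]
      · intro h; left; linarith
    rw [e, vol_nq_lt hn (Real.sqrt_nonneg _), ENNReal.ofReal_mul (by positivity),
      ENNReal.ofReal_pow (Real.sqrt_nonneg _)]
  refine le_trans ?_ h2
  have hint : IntegrableOn (fun t : ℝ => √(1 - t) ^ n * VV n) (Set.Ioo 0 1) := by
    have : Continuous fun t : ℝ => √(1 - t) ^ n * VV n := by fun_prop
    exact (this.continuousOn.integrableOn_Icc).mono_set Set.Ioo_subset_Icc_self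
  rw [← ofReal_integral_eq_lintegral_ofReal hint
    (Filter.Eventually.of_forall fun t => mul_nonneg (by positivity) (VV_nonneg n))]
  refine ENNReal.ofReal_le_ofReal (le_of_eq ?_)
  rw [← integral_Ioc_eq_integral_Ioo, ← intervalIntegral.integral_of_le zero_le_one,
    intervalIntegral.integral_mul_const, int_pow]
  ring

lemma gam_odd (k : ℕ) (x : ℝ) (hx : x = k + 1 + 1 / 2) : Real.Gamma x =
    (2 * k + 1 : ℕ).doubleFactorial * √Real.pi / 2 ^ (k + 1) := by
  rw [hx]; exact Real.Gamma_nat_add_one_add_half k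

lemma VV_big (n : ℕ) (h0 : 0 < n) (h7 : n ≤ 7) : 1 < VV n * (2 / (n + 2)) := by
  have hpi := Real.pi_gt_d2
  have hs : √Real.pi ^ 2 = Real.pi := Real.sq_sqrt Real.pi_pos.le
  have hs0 : 0 < √Real.pi := Real.sqrt_pos.2 Real.pi_pos
  have hsne := hs0.ne'
  have hp0 := Real.pi_pos
  have e1 : VV 1 = 2 := by
    unfold VV
    rw [gam_odd 0 _ (by norm_num)]
    norm_num [Nat.doubleFactorial]
    field_simp
  have e2 : VV 2 = Real.pi := by
    unfold VV
    rw [hs]
    norm_num
  have e3 : VV 3 = 4 * Real.pi / 3 := by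
    unfold VV
    rw [gam_odd 1 _ (by norm_num)]
    norm_num [Nat.doubleFactorial]
    rw [show √Real.pi ^ 3 = √Real.pi ^ 2 * √Real.pi by ring, hs]
    field_simp
  have e4 : VV 4 = Real.pi ^ 2 / 2 := by
    unfold VV
    rw [show √Real.pi ^ 4 = (√Real.pi ^ 2) ^ 2 by ring, hs]
    have : ((4 : ℕ) : ℝ) / 2 + 1 = (2 : ℕ) + 1 := by norm_num
    rw [this, Real.Gamma_nat_eq_factorial]
    norm_num [Nat.factorial]
  have e5 : VV 5 = 8 * Real.pi ^ 2 / 15 := by
    unfold VV
    rw [gam_odd 2 _ (by norm_num)]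
    norm_num [Nat.doubleFactorial]
    rw [show √Real.pi ^ 5 = (√Real.pi ^ 2) ^ 2 * √Real.pi by ring, hs]
    field_simp
  have e6 : VV 6 = Real.pi ^ 3 / 6 := by
    unfold VV
    rw [show √Real.pi ^ 6 = (√Real.pi ^ 2) ^ 3 by ring, hs]
    have : ((6 : ℕ) : ℝ) / 2 + 1 = (3 : ℕ) + 1 := by norm_num
    rw [this, Real.Gamma_nat_eq_factorial]
    norm_num [Nat.factorial]
  have e7 : VV 7 = 16 * Real.pi ^ 3 / 105 := by
    unfold VV
    rw [gam_odd 3 _ (by norm_num)]
    norm_num [Nat.doubleFactorial]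
    rw [show √Real.pi ^ 7 = (√Real.pi ^ 2) ^ 3 * √Real.pi by ring, hs]
    field_simp
  have hp2 : (3.14 : ℝ) ^ 2 < Real.pi ^ 2 := by gcongr
  have hp3 : (3.14 : ℝ) ^ 3 < Real.pi ^ 3 := by gcongr
  interval_cases n
  · rw [e1]; norm_num
  · rw [e2]; norm_num; linarith
  · rw [e3]; norm_num; linarith
  · rw [e4]; norm_num; linarith
  · rw [e5]; norm_num; linarith
  · rw [e6]; norm_num; linarith
  · rw [e7]; norm_num; linarith

/-- A lattice of covolume one in dimension at most seven has a nonzero vector of squared length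
less than two. -/
theorem short_vector (hn : 0 < n) (h7 : n ≤ 7) (b : Module.Basis (Fin n) ℝ (Fin n → ℝ))
    (hdet : |(Matrix.of b).det| = 1) :
    ∃ v ∈ Submodule.span ℤ (Set.range b), v ≠ 0 ∧ nq v < 2 := by
  by_contra hcon
  push Not at hcon
  have h1 := (lint_ge hn).trans (lint_le b hdet hcon)
  rw [← ENNReal.ofReal_one, ENNReal.ofReal_le_ofReal_iff zero_le_one] at h1
  exact absurd (VV_big n hn h7) (not_lt.2 h1)

end Pool.Agent.Q56.IC
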