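import Mathlib

/-!
# Blichfeldt's argument: a lattice of covolume one in dimension at most seven has a nonzero vector
of squared length less than two
-/

set_option autoImplicit false

namespace Pool.Agent.Q56.IC

open MeasureTheory Finset

variable {n : ℕ}

/-- squared Euclidean length -/
def nq (z : Fin n → ℝ) : ℝ := ∑ c, z c ^ 2

lemma nq_nonneg (z : Fin n → ℝ) : 0 ≤ nq z := Finset.sum_nonneg fun _ _ => sq_nonneg _

lemma coord_ineq {ι : Type*} (s : Finset ι) (a : ι → ℝ) :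
    ∑ i ∈ s, ∑ j ∈ s, (a i - a j) ^ 2 ≤ 2 * s.card * ∑ i ∈ s, a i ^ 2 := by
  have h : ∑ i ∈ s, ∑ j ∈ s, (a i - a j) ^ 2 =
      2 * s.card * ∑ i ∈ s, a i ^ 2 - 2 * (∑ i ∈ s, a i) ^ 2 := by
    have h1 : ∀ i ∈ s, ∑ j ∈ s, (a i - a j) ^ 2 =
        s.card * a i ^ 2 - 2 * (a i * ∑ j ∈ s, a j) + ∑ j ∈ s, a j ^ 2 := by
      intro i _
      have : ∀ j ∈ s, (a i - a j) ^ 2 = a i ^ 2 - 2 * (a i * a j) + a j ^ 2 := by
        intro j _; ring
      rw [Finset.sum_congr rfl this, Finset.sum_add_distrib, Finset.sum_sub_distrib,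
        Finset.sum_const, nsmul_eq_mul, ← Finset.mul_sum, ← Finset.mul_sum]
    rw [Finset.sum_congr rfl h1, Finset.sum_add_distrib, Finset.sum_sub_distrib,
      ← Finset.mul_sum, ← Finset.mul_sum, ← Finset.sum_mul, Finset.sum_const, nsmul_eq_mul]
    ring
  rw [h]
  nlinarith [sq_nonneg (∑ i ∈ s, a i)]

lemma fin_ineq {ι : Type*} (s : Finset ι) (z : ι → Fin n → ℝ)
    (h : ∀ i ∈ s, ∀ j ∈ s, i ≠ j → 2 ≤ nq (z i - z j)) :
    ∑ i ∈ s, (1 - nq (z i)) ≤ 1 := by
  classical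
  rcases s.eq_empty_or_nonempty with rfl | hs
  · simp
  have hc : (0 : ℝ) < s.card := by exact_mod_cast hs.card_pos
  have h1 : ∑ i ∈ s, ∑ j ∈ s, nq (z i - z j) ≤ 2 * s.card * ∑ i ∈ s, nq (z i) := by
    have e1 : ∑ i ∈ s, ∑ j ∈ s, nq (z i - z j) =
        ∑ c, ∑ i ∈ s, ∑ j ∈ s, (z i c - z j c) ^ 2 := by
      unfold nq
      rw [Finset.sum_comm]
      conv_rhs => rw [Finset.sum_comm]
      rw [Finset.sum_comm]
      refine Finset.sum_congr rfl fun i _ => ?_
      rw [Finset.sum_comm]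
      rfl
    have e2 : ∑ i ∈ s, nq (z i) = ∑ c, ∑ i ∈ s, z i c ^ 2 := by
      unfold nq
      rw [Finset.sum_comm]
    rw [e1, e2, Finset.mul_sum]
    exact Finset.sum_le_sum fun c _ => coord_ineq s fun i => z i c
  have h2 : 2 * ((s.card : ℝ) * (s.card - 1)) ≤ ∑ i ∈ s, ∑ j ∈ s, nq (z i - z j) := by
    have : ∀ i ∈ s, 2 * ((s.card : ℝ) - 1) ≤ ∑ j ∈ s, nq (z i - z j) := by
      intro i hi
      have h3 : ∑ j ∈ s.erase i, (2 : ℝ) ≤ ∑ j ∈ s.erase i, nq (z i - z j) :=
        Finset.sum_le_sum fun j hj => h i hi j (Finset.mem_of_mem_erase hj)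
          (Finset.ne_of_mem_erase hj).symm
      rw [Finset.sum_const, Finset.card_erase_of_mem hi, nsmul_eq_mul] at h3
      have h4 : ∑ j ∈ s.erase i, nq (z i - z j) ≤ ∑ j ∈ s, nq (z i - z j) :=
        Finset.sum_le_sum_of_subset_of_nonneg (Finset.erase_subset _ _) fun _ _ _ => nq_nonneg _
      have h5 : ((s.card - 1 : ℕ) : ℝ) = s.card - 1 := by
        have := hs.card_pos
        push_cast [Nat.cast_sub (show 1 ≤ s.card from this)]
        ring
      rw [h5] at h3
      linarith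
    have h6 := Finset.sum_le_sum this
    rw [Finset.sum_const, nsmul_eq_mul] at h6
    linarith
  rw [Finset.sum_sub_distrib, Finset.sum_const, nsmul_eq_mul, mul_one]
  have h7 : (s.card : ℝ) * (s.card - 1) ≤ s.card * ∑ i ∈ s, nq (z i) := by linarith
  have h8 := le_of_mul_le_mul_left h7 hc
  linarith

/-- the test function -/
noncomputable def tf (z : Fin n → ℝ) : ENNReal := ENNReal.ofReal (1 - nq z)

lemma continuous_nq : Continuous (nq (n := n)) := by
  unfold nq; fun_prop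

lemma measurable_tf : Measurable (tf (n := n)) := by
  unfold tf
  exact ENNReal.measurable_ofReal.comp (by have := continuous_nq (n := n); fun_prop)

lemma tsum_tf_le (b : Module.Basis (Fin n) ℝ (Fin n → ℝ))
    (h : ∀ v ∈ Submodule.span ℤ (Set.range b), v ≠ 0 → 2 ≤ nq v) (y : Fin n → ℝ) :
    ∑' g : Submodule.span ℤ (Set.range b), tf (g +ᵥ y) ≤ 1 := by
  classical
  rw [ENNReal.tsum_eq_iSup_sum]
  refine iSup_le fun s => ?_
  have e : ∑ g ∈ s, tf (g +ᵥ y) = ∑ g ∈ s.filter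
      (fun g : Submodule.span ℤ (Set.range b) => nq ((g : Fin n → ℝ) + y) < 1),
      tf (g +ᵥ y) := by
    symm
    refine Finset.sum_subset (Finset.filter_subset _ _) fun g hg hg' => ?_
    have : ¬ nq ((g : Fin n → ℝ) + y) < 1 := fun hc => hg' (Finset.mem_filter.2 ⟨hg, hc⟩)
    unfold tf
    rw [ENNReal.ofReal_eq_zero]
    have e2 : g +ᵥ y = (g : Fin n → ℝ) + y := rfl
    rw [e2]
    linarith
  rw [e]
  unfold tf
  rw [← ENNReal.ofReal_sum_of_nonneg, ← ENNReal.ofReal_one]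
  · refine ENNReal.ofReal_le_ofReal ?_
    refine fin_ineq _ (fun g : Submodule.span ℤ (Set.range b) => g +ᵥ y) ?_
    intro g _ g' _ hne
    have e3 : (g +ᵥ y) - (g' +ᵥ y) = ((g - g' : Submodule.span ℤ (Set.range b)) : Fin n → ℝ) := by
      have e2 : g +ᵥ y = (g : Fin n → ℝ) + y := rfl
      have e2' : g' +ᵥ y = (g' : Fin n → ℝ) + y := rfl
      rw [e2, e2']
      push_cast
      abel
    rw [e3]
    refine h _ (g - g').2 ?_
    intro h0
    apply hne
    have : g - g' = 0 := Subtype.ext h0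
    exact sub_eq_zero.1 this
  · intro g hg
    have := (Finset.mem_filter.1 hg).2
    have e2 : g +ᵥ y = (g : Fin n → ℝ) + y := rfl
    rw [e2]
    linarith

lemma lint_le (b : Module.Basis (Fin n) ℝ (Fin n → ℝ)) (hdet : |(Matrix.of b).det| = 1)
    (h : ∀ v ∈ Submodule.span ℤ (Set.range b), v ≠ 0 → 2 ≤ nq v) :
    ∫⁻ y : Fin n → ℝ, tf y ≤ 1 := by
  have hF := ZSpan.isAddFundamentalDomain b (volume : Measure (Fin n → ℝ))
  have hcount : Countable (Submodule.span ℤ (Set.range b)) := by infer_instance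
  have hinv : VAddInvariantMeasure (Submodule.span ℤ (Set.range b)) (Fin n → ℝ) volume :=
    inferInstanceAs <| VAddInvariantMeasure (Submodule.span ℤ (Set.range b)).toAddSubgroup
      (Fin n → ℝ) volume
  rw [hF.lintegral_eq_tsum'' tf]
  rw [← lintegral_tsum]
  · calc ∫⁻ y in ZSpan.fundamentalDomain b, ∑' g : Submodule.span ℤ (Set.range b), tf (g +ᵥ y)
        ≤ ∫⁻ y in ZSpan.fundamentalDomain b, 1 := lintegral_mono fun y => tsum_tf_le b h y
      _ = volume (ZSpan.fundamentalDomain b) := by simp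
      _ = 1 := by rw [ZSpan.volume_fundamentalDomain, hdet, ENNReal.ofReal_one]
  · intro g
    exact (measurable_tf.comp (measurable_const_vadd g)).aemeasurable

end Pool.Agent.Q56.IC
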