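import Mathlib

/-!
# Self-dual sublattices of `ℤ^8` modulo `λ`
-/

set_option autoImplicit false

namespace Pool.Agent.Q56.IC

open Matrix

/-- the double annihilator property -/
lemma exists_dual {n : ℕ} (W : AddSubgroup (Fin n → ℤ)) (lam : ℤ) (hlam : 0 < lam)
    (hW : ∀ i, (Pi.single i lam : Fin n → ℤ) ∈ W) (x : Fin n → ℤ) (hx : x ∉ W) :
    ∃ z : Fin n → ℤ, (∀ w ∈ W, lam ∣ z ⬝ᵥ w) ∧ ¬ lam ∣ z ⬝ᵥ x := by
  have hne : (QuotientAddGroup.mk x : (Fin n → ℤ) ⧸ W) ≠ 0 := by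
    rwa [Ne, QuotientAddGroup.eq_zero_iff]
  obtain ⟨c, hc⟩ := CharacterModule.exists_character_apply_ne_zero_of_ne_zero hne
  -- the values on the standard basis
  have h1 : ∀ i, ∃ z : ℤ, c (QuotientAddGroup.mk (Pi.single i 1)) =
      (((z : ℚ) / lam : ℚ) : AddCircle (1 : ℚ)) := by
    intro i
    obtain ⟨r, hr⟩ := QuotientAddGroup.mk_surjective (c (QuotientAddGroup.mk (Pi.single i 1)))
    have h2 : lam • c (QuotientAddGroup.mk (Pi.single i 1)) = 0 := by
      rw [← map_zsmul, ← QuotientAddGroup.mk_zsmul]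
      have : lam • (Pi.single i 1 : Fin n → ℤ) = Pi.single i lam := by
        rw [← Pi.single_smul]; simp
      rw [this, (QuotientAddGroup.eq_zero_iff _).2 (hW i), map_zero]
    have hr' : ((r : ℚ) : AddCircle (1 : ℚ)) = c (QuotientAddGroup.mk (Pi.single i 1)) := hr
    rw [← hr', ← AddCircle.coe_zsmul, AddCircle.coe_eq_zero_iff] at h2
    obtain ⟨z, hz⟩ := h2
    refine ⟨z, ?_⟩
    rw [← hr']
    congr 1
    have hl : (lam : ℚ) ≠ 0 := by exact_mod_cast hlam.ne'
    simp only [zsmul_eq_mul, mul_one] at hz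
    rw [hz]
    field_simp
  choose z hz using h1
  have hcs : ∀ (s : Finset (Fin n)) (f : Fin n → ℚ),
      ((∑ i ∈ s, f i : ℚ) : AddCircle (1 : ℚ)) = ∑ i ∈ s, ((f i : ℚ) : AddCircle (1 : ℚ)) :=
    fun s f => map_sum (QuotientAddGroup.mk' (AddSubgroup.zmultiples (1 : ℚ))) f s
  have key : ∀ y : Fin n → ℤ, c (QuotientAddGroup.mk y) =
      ((((z ⬝ᵥ y : ℤ) : ℚ) / lam : ℚ) : AddCircle (1 : ℚ)) := by
    intro y
    have hy : y = ∑ i, y i • (Pi.single i 1 : Fin n → ℤ) := by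
      conv_lhs => rw [pi_eq_sum_univ y]
      refine Finset.sum_congr rfl fun i _ => ?_
      congr 1
      ext j
      simp [Pi.single_apply, eq_comm]
    conv_lhs => rw [hy]
    rw [← QuotientAddGroup.mk'_apply, map_sum, map_sum]
    have : ∀ i, c (QuotientAddGroup.mk' W (y i • Pi.single i 1)) =
        (((y i * z i : ℚ) / lam : ℚ) : AddCircle (1 : ℚ)) := by
      intro i
      rw [map_zsmul, map_zsmul]
      rw [QuotientAddGroup.mk'_apply, hz i, ← AddCircle.coe_zsmul]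
      congr 1
      simp only [zsmul_eq_mul]
      ring
    rw [Finset.sum_congr rfl fun i _ => this i]
    rw [← hcs]
    congr 1
    rw [← Finset.sum_div]
    congr 1
    simp only [dotProduct]
    push_cast
    exact Finset.sum_congr rfl fun i _ => mul_comm _ _
  have hl : (lam : ℚ) ≠ 0 := by exact_mod_cast hlam.ne'
  have zero_iff : ∀ y : Fin n → ℤ, c (QuotientAddGroup.mk y) = 0 ↔ lam ∣ z ⬝ᵥ y := by
    intro y
    rw [key, AddCircle.coe_eq_zero_iff]
    constructor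
    · rintro ⟨m, hm⟩
      simp only [zsmul_eq_mul, mul_one] at hm
      refine ⟨m, ?_⟩
      have : ((z ⬝ᵥ y : ℤ) : ℚ) = lam * m := by
        rw [hm]; field_simp
      exact_mod_cast this
    · rintro ⟨m, hm⟩
      refine ⟨m, ?_⟩
      rw [hm]
      simp only [zsmul_eq_mul, mul_one]
      push_cast
      field_simp
  refine ⟨z, fun w hw => ?_, fun hd => hc ((zero_iff x).2 hd)⟩
  rw [← zero_iff, (QuotientAddGroup.eq_zero_iff _).2 hw, map_zero]

end Pool.Agent.Q56.IC
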