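import Pool.Agent.Q56.IC.Code

/-!
# Every icube spans a sublattice of a self-dual lattice modulo `λ`
-/

set_option autoImplicit false

namespace Pool.Agent.Q56.IC

open Matrix

/-- left multiplication by a quaternion on two copies of `ℤ^4` -/
def SM (a b c d : ℤ) : Matrix (Fin 8) (Fin 8) ℤ :=
  !![a, b, c, d, 0, 0, 0, 0;
    -b, a, -d, c, 0, 0, 0, 0;
    -c, d, a, -b, 0, 0, 0, 0;
    -d, -c, b, a, 0, 0, 0, 0;
    0, 0, 0, 0, a, b, c, d;
    0, 0, 0, 0, -b, a, -d, c;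
    0, 0, 0, 0, -c, d, a, -b;
    0, 0, 0, 0, -d, -c, b, a]

lemma SM_mul_transpose (a b c d : ℤ) :
    SM a b c d * (SM a b c d)ᵀ = (a ^ 2 + b ^ 2 + c ^ 2 + d ^ 2) • (1 : Matrix (Fin 8) (Fin 8) ℤ) := by
  ext i j
  fin_cases i <;> fin_cases j <;>
    simp [SM, Matrix.mul_apply, Fin.sum_univ_succ] <;> ring

lemma SM_transpose_mul (a b c d : ℤ) :
    (SM a b c d)ᵀ * SM a b c d = (a ^ 2 + b ^ 2 + c ^ 2 + d ^ 2) • (1 : Matrix (Fin 8) (Fin 8) ℤ) := by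
  ext i j
  fin_cases i <;> fin_cases j <;>
    simp [SM, Matrix.mul_apply, Fin.sum_univ_succ] <;> ring

lemma exists_sim (lam : ℤ) (hlam : 0 < lam) : ∃ S : Matrix (Fin 8) (Fin 8) ℤ,
    S * Sᵀ = lam • (1 : Matrix (Fin 8) (Fin 8) ℤ) ∧ Sᵀ * S = lam • (1 : Matrix (Fin 8) (Fin 8) ℤ) := by
  obtain ⟨a, b, c, d, h⟩ := Nat.sum_four_squares lam.toNat
  have h' : (a : ℤ) ^ 2 + (b : ℤ) ^ 2 + (c : ℤ) ^ 2 + (d : ℤ) ^ 2 = lam := by
    have : ((a ^ 2 + b ^ 2 + c ^ 2 + d ^ 2 : ℕ) : ℤ) = lam := by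
      rw [h]; exact Int.toNat_of_nonneg hlam.le
    push_cast at this
    exact this
  refine ⟨SM a b c d, ?_, ?_⟩
  · rw [SM_mul_transpose, h']
  · rw [SM_transpose_mul, h']

/-- A `k`-icube in `ℤ^8` of norm `lam`. -/
def IsIcube {k : ℕ} (lam : ℤ) (v : Fin k → Fin 8 → ℤ) : Prop :=
  ∀ i j, v i ⬝ᵥ v j = if i = j then lam else 0

lemma exists_U {k : ℕ} (lam : ℤ) (hlam : 0 < lam) (v : Fin k → Fin 8 → ℤ) (hv : IsIcube lam v) :
    ∃ U : AddSubgroup (Fin 8 → ℤ), (∀ e : Fin 8 → ℤ, lam • e ∈ U) ∧ (∀ i, v i ∈ U) ∧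
      (∀ x ∈ U, ∀ y ∈ U, lam ∣ x ⬝ᵥ y) ∧ (∀ x, (∀ u ∈ U, lam ∣ x ⬝ᵥ u) → x ∈ U) := by
  obtain ⟨S, hS1, hS2⟩ := exists_sim lam hlam
  -- the self-dual lattice `T`
  let T : AddSubgroup (Fin 8 → ℤ) := (Matrix.mulVecLin S).toAddMonoidHom.range
  have hT : ∀ x, x ∈ T ↔ ∃ z, S *ᵥ z = x := fun x => Iff.rfl
  have hTlam : ∀ e : Fin 8 → ℤ, lam • e ∈ T := by
    intro e
    rw [hT]
    refine ⟨Sᵀ *ᵥ e, ?_⟩
    rw [mulVec_mulVec, hS1, smul_mulVec, one_mulVec]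
  have hTorth : ∀ x ∈ T, ∀ y ∈ T, lam ∣ x ⬝ᵥ y := by
    rintro x hx y hy
    obtain ⟨a, rfl⟩ := (hT x).1 hx
    obtain ⟨b, rfl⟩ := (hT y).1 hy
    refine ⟨a ⬝ᵥ b, ?_⟩
    rw [dotProduct_mulVec, ← mulVec_transpose, mulVec_mulVec, hS2, smul_mulVec, one_mulVec,
      smul_dotProduct, smul_eq_mul]
  have hTdual : ∀ x, (∀ t ∈ T, lam ∣ x ⬝ᵥ t) → x ∈ T := by
    intro x hx
    have h1 : ∀ i, lam ∣ (Sᵀ *ᵥ x) i := by
      intro i
      have := hx (S *ᵥ Pi.single i 1) ⟨_, rfl⟩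
      rw [dotProduct_mulVec, ← mulVec_transpose] at this
      simpa using this
    choose y hy using h1
    have h2 : Sᵀ *ᵥ x = lam • y := by
      ext i; rw [hy i]; simp
    have h3 : lam • x = lam • (S *ᵥ y) := by
      rw [← mulVec_smul, ← h2, mulVec_mulVec, hS1, smul_mulVec, one_mulVec]
    rw [hT]
    refine ⟨y, ?_⟩
    ext i
    have := congrFun h3 i
    simp only [Pi.smul_apply, smul_eq_mul] at this
    exact (mul_left_cancel₀ hlam.ne' this).symm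
  -- the vectors orthogonal to all `v i` modulo `lam`
  let P : AddSubgroup (Fin 8 → ℤ) :=
    { carrier := {x | ∀ i, lam ∣ x ⬝ᵥ v i}
      zero_mem' := fun i => by simp
      add_mem' := fun {a b} ha hb i => by rw [add_dotProduct]; exact dvd_add (ha i) (hb i)
      neg_mem' := fun {a} ha i => by rw [neg_dotProduct]; exact (ha i).neg_right }
  have hP : ∀ x, x ∈ P ↔ ∀ i, lam ∣ x ⬝ᵥ v i := fun x => Iff.rfl
  let V : AddSubgroup (Fin 8 → ℤ) := AddSubgroup.closure (Set.range v)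
  have hvP : ∀ i, v i ∈ P := fun i => by
    rw [hP]
    intro j
    rw [hv i j]
    split_ifs
    · exact dvd_rfl
    · exact dvd_zero _
  have hVP : V ≤ P := (AddSubgroup.closure_le _).2 (by rintro _ ⟨i, rfl⟩; exact hvP i)
  -- elements of `P` are orthogonal to `V`
  have hPV : ∀ x ∈ P, ∀ y ∈ V, lam ∣ x ⬝ᵥ y := by
    intro x hx y hy
    refine AddSubgroup.closure_induction (p := fun y _ => lam ∣ x ⬝ᵥ y) ?_ ?_ ?_ ?_ hy
    · rintro _ ⟨i, rfl⟩; exact hx i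
    · simp
    · intro a b _ _ ha hb; rw [dotProduct_add]; exact dvd_add ha hb
    · intro a _ ha; rw [dotProduct_neg]; exact ha.neg_right
  refine ⟨(T ⊓ P) ⊔ V, ?_, ?_, ?_, ?_⟩
  · intro e
    refine AddSubgroup.mem_sup_left ⟨hTlam e, ?_⟩
    show lam • e ∈ P
    rw [hP]
    intro i
    rw [smul_dotProduct, smul_eq_mul]
    exact dvd_mul_right _ _
  · intro i
    exact AddSubgroup.mem_sup_right (AddSubgroup.subset_closure ⟨i, rfl⟩)
  · intro x hx y hy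
    obtain ⟨t, ht, a, ha, rfl⟩ := AddSubgroup.mem_sup.1 hx
    obtain ⟨s, hs, b, hb, rfl⟩ := AddSubgroup.mem_sup.1 hy
    rw [add_dotProduct, dotProduct_add, dotProduct_add]
    refine dvd_add (dvd_add (hTorth t ht.1 s hs.1) (hPV t ht.2 b hb)) (dvd_add ?_ ?_)
    · rw [dotProduct_comm]; exact hPV s hs.2 a ha
    · exact hPV a (hVP ha) b hb
  · intro x hx
    have hxP : x ∈ P := by
      rw [hP]
      intro i
      exact hx _ (AddSubgroup.mem_sup_right (AddSubgroup.subset_closure ⟨i, rfl⟩))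
    have hxTV : x ∈ T ⊔ V := by
      by_contra hcon
      obtain ⟨z, hz1, hz2⟩ := exists_dual (T ⊔ V) lam hlam (fun i => by
        refine AddSubgroup.mem_sup_left ?_
        have : (Pi.single i lam : Fin 8 → ℤ) = lam • (Pi.single i 1 : Fin 8 → ℤ) := by
          rw [← Pi.single_smul]; simp
        rw [this]
        exact hTlam _) x hcon
      have hzT : z ∈ T := hTdual z fun t ht => hz1 t (AddSubgroup.mem_sup_left ht)
      have hzP : z ∈ P := fun i =>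
        hz1 _ (AddSubgroup.mem_sup_right (AddSubgroup.subset_closure ⟨i, rfl⟩))
      apply hz2
      rw [dotProduct_comm]
      exact hx z (AddSubgroup.mem_sup_left ⟨hzT, hzP⟩)
    obtain ⟨t, ht, a, ha, rfl⟩ := AddSubgroup.mem_sup.1 hxTV
    refine AddSubgroup.mem_sup.2 ⟨t, ⟨ht, ?_⟩, a, ha, rfl⟩
    have : t = (t + a) - a := by abel
    show t ∈ P
    rw [this]
    exact sub_mem hxP (hVP ha)

end Pool.Agent.Q56.IC
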