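import Pool.Agent.Q56.IC.Ball
import Pool.Agent.Q56.IC.SelfDual

/-!
# Extension of icubes in `ℤ^8`
-/

set_option autoImplicit false

namespace Pool.Agent.Q56.IC

open Matrix

/-- An integral positive semidefinite matrix of size at most seven and determinant one represents
one. -/
lemma represents_one {n : ℕ} (hn : 0 < n) (h7 : n ≤ 7) (G : Matrix (Fin n) (Fin n) ℤ)
    (hG : (G.map (Int.cast : ℤ → ℝ)).PosSemidef) (hdet : G.det = 1) :
    ∃ x : Fin n → ℤ, x ⬝ᵥ (G *ᵥ x) = 1 := by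
  open scoped MatrixOrder in
  obtain ⟨A, hA⟩ : ∃ A : Matrix (Fin n) (Fin n) ℝ, G.map (Int.cast : ℤ → ℝ) = Aᵀ * A := by
    obtain ⟨B, hB⟩ := CStarAlgebra.nonneg_iff_eq_star_mul_self.1 (Matrix.nonneg_iff_posSemidef.2 hG)
    refine ⟨B, ?_⟩
    rw [hB, Matrix.star_eq_conjTranspose, Matrix.conjTranspose_eq_transpose_of_trivial]
  have hdA : A.det ^ 2 = 1 := by
    have h1 : (G.map (Int.cast : ℤ → ℝ)).det = 1 := by
      have := (Int.castRingHom ℝ).map_det G
      rw [hdet] at this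
      simpa using this.symm
    rw [hA, det_mul, det_transpose] at h1
    rw [sq]; exact h1
  have hdA1 : |A.det| = 1 := by
    have := abs_eq_abs.2 (sq_eq_sq_iff_eq_or_eq_neg.1 (by rw [hdA]; norm_num : A.det ^ 2 = 1 ^ 2))
    simpa using this
  have hunit : IsUnit Aᵀ := by
    rw [Matrix.isUnit_iff_isUnit_det, det_transpose]
    refine isUnit_iff_ne_zero.2 fun h => ?_
    rw [h] at hdA; norm_num at hdA
  have hli : LinearIndependent ℝ Aᵀ.row := Matrix.linearIndependent_rows_iff_isUnit.2 hunit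
  have : Nonempty (Fin n) := ⟨⟨0, hn⟩⟩
  let b : Module.Basis (Fin n) ℝ (Fin n → ℝ) :=
    basisOfLinearIndependentOfCardEqFinrank hli (by simp)
  have hb : ∀ i, b i = fun c => A c i := by
    intro i
    simp only [b, coe_basisOfLinearIndependentOfCardEqFinrank]
    rfl
  have hbdet : |(Matrix.of b).det| = 1 := by
    have : Matrix.of b = Aᵀ := by
      ext i j
      rw [Matrix.of_apply, hb]
      rfl
    rw [this, det_transpose, hdA1]
  obtain ⟨v, hv, hv0, hv2⟩ := short_vector hn h7 b hbdet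
  rw [Submodule.mem_span_range_iff_exists_fun] at hv
  obtain ⟨x, rfl⟩ := hv
  have e1 : (∑ i, x i • b i) = A *ᵥ (fun i => (x i : ℝ)) := by
    ext c
    rw [Finset.sum_apply, mulVec, dotProduct]
    refine Finset.sum_congr rfl fun i _ => ?_
    rw [Pi.smul_apply, hb, zsmul_eq_mul]
    ring
  have e2 : nq (∑ i, x i • b i) = ((x ⬝ᵥ (G *ᵥ x) : ℤ) : ℝ) := by
    have h1 : nq (∑ i, x i • b i) = (A *ᵥ (fun i => (x i : ℝ))) ⬝ᵥ (A *ᵥ (fun i => (x i : ℝ))) := by
      rw [e1]
      simp only [nq, dotProduct]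
      exact Finset.sum_congr rfl fun c _ => sq _
    have h2 : (A *ᵥ (fun i => (x i : ℝ))) ⬝ᵥ (A *ᵥ (fun i => (x i : ℝ))) =
        (fun i => (x i : ℝ)) ⬝ᵥ ((G.map (Int.cast : ℤ → ℝ)) *ᵥ (fun i => (x i : ℝ))) := by
      rw [hA, ← mulVec_mulVec, dotProduct_mulVec, ← mulVec_transpose, dotProduct_comm]
    rw [h1, h2]
    simp only [dotProduct, mulVec, Matrix.map_apply]
    push_cast
    rfl
  refine ⟨x, ?_⟩
  have h0 : 0 < nq (∑ i, x i • b i) := by
    by_contra hcon
    apply hv0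
    have h3 : nq (∑ i, x i • b i) = 0 := le_antisymm (not_lt.1 hcon) (nq_nonneg _)
    unfold nq at h3
    rw [Finset.sum_eq_zero_iff_of_nonneg fun _ _ => sq_nonneg _] at h3
    ext c
    simpa using h3 c (Finset.mem_univ _)
  rw [e2] at h0 hv2
  have h1 : 0 < x ⬝ᵥ (G *ᵥ x) := by exact_mod_cast h0
  have h2 : x ⬝ᵥ (G *ᵥ x) < 2 := by exact_mod_cast hv2
  omega

/-- the map `x ↦ λ x - ∑ (x · v i) v i` -/
def rho {k : ℕ} (lam : ℤ) (v : Fin k → Fin 8 → ℤ) : (Fin 8 → ℤ) →ₗ[ℤ] (Fin 8 → ℤ) where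
  toFun x := lam • x - ∑ i, (x ⬝ᵥ v i) • v i
  map_add' x y := by
    simp only [add_dotProduct, add_smul, Finset.sum_add_distrib, smul_add]
    abel
  map_smul' c x := by
    simp only [smul_dotProduct, smul_assoc, ← Finset.smul_sum, RingHom.id_apply, smul_sub]
    rw [smul_comm]

lemma rho_apply {k : ℕ} (lam : ℤ) (v : Fin k → Fin 8 → ℤ) (x : Fin 8 → ℤ) :
    rho lam v x = lam • x - ∑ i, (x ⬝ᵥ v i) • v i := rfl

lemma sum_smul_dot {k : ℕ} {lam : ℤ} {v : Fin k → Fin 8 → ℤ} (hv : IsIcube lam v)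
    (c : Fin k → ℤ) (j : Fin k) : (∑ i, c i • v i) ⬝ᵥ v j = lam * c j := by
  rw [sum_dotProduct, Finset.sum_eq_single j]
  · rw [smul_dotProduct, hv j j, if_pos rfl, smul_eq_mul, mul_comm]
  · intro i _ hij
    rw [smul_dotProduct, hv i j, if_neg hij, smul_zero]
  · intro h; exact absurd (Finset.mem_univ _) h

lemma rho_orth {k : ℕ} {lam : ℤ} {v : Fin k → Fin 8 → ℤ} (hv : IsIcube lam v)
    (x : Fin 8 → ℤ) (j : Fin k) : rho lam v x ⬝ᵥ v j = 0 := by
  rw [rho_apply, sub_dotProduct, sum_smul_dot hv, smul_dotProduct, smul_eq_mul, sub_self]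

lemma step {k : ℕ} (hk1 : 1 ≤ k) (hk8 : k < 8) (lam : ℤ) (hlam : 0 < lam)
    (v : Fin k → Fin 8 → ℤ) (hv : IsIcube lam v) :
    ∃ w : Fin 8 → ℤ, w ⬝ᵥ w = lam ∧ ∀ i, w ⬝ᵥ v i = 0 := by
  obtain ⟨U, hU0, hUv, hUo, hUd⟩ := exists_U lam hlam v hv
  let N : Submodule ℤ (Fin 8 → ℤ) :=
    { carrier := {x | x ∈ U ∧ ∀ i, x ⬝ᵥ v i = 0}
      zero_mem' := ⟨U.zero_mem, fun i => by simp⟩
      add_mem' := fun {a b} ha hb => ⟨U.add_mem ha.1 hb.1, fun i => by
        rw [add_dotProduct, ha.2 i, hb.2 i, add_zero]⟩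
      smul_mem' := fun c x hx => ⟨U.zsmul_mem hx.1 c, fun i => by
        rw [smul_dotProduct, hx.2 i, smul_zero]⟩ }
  have hN : ∀ x, x ∈ N ↔ x ∈ U ∧ ∀ i, x ⬝ᵥ v i = 0 := fun x => Iff.rfl
  have hrhoU : ∀ x, rho lam v x ∈ U := fun x => by
    rw [rho_apply]
    exact U.sub_mem (hU0 x) (U.sum_mem fun i _ => U.zsmul_mem (hUv i) _)
  have hrhoN : ∀ x, rho lam v x ∈ N := fun x => (hN _).2 ⟨hrhoU x, rho_orth hv x⟩
  let rN : (Fin 8 → ℤ) →ₗ[ℤ] N := LinearMap.codRestrict N (rho lam v) hrhoN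
  have hrN : ∀ x, ((rN x : N) : Fin 8 → ℤ) = rho lam v x := fun x => rfl
  obtain ⟨n, bN⟩ := Submodule.basisOfPid (Pi.basisFun ℤ (Fin 8)) N
  have hfinN : Module.finrank ℤ N = n := by
    rw [Module.finrank_eq_card_basis bN, Fintype.card_fin]
  have : Module.Free ℤ N := Module.Free.of_basis bN
  have : Module.Finite ℤ N := Module.Finite.of_basis bN
  have hfin : Module.finrank ℤ ((Fin k → ℤ) × N) = k + n := by
    rw [Module.finrank_prod, Module.finrank_fin_fun, hfinN]
  have h1 : k + n ≤ 8 := by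
    let Ψ : ((Fin k → ℤ) × N) →ₗ[ℤ] (Fin 8 → ℤ) :=
      (Fintype.linearCombination ℤ v).coprod N.subtype
    have hΨ : Function.Injective Ψ := by
      rw [injective_iff_map_eq_zero]
      rintro ⟨c, y⟩ h
      have e : Ψ (c, y) = ∑ i, c i • v i + (y : Fin 8 → ℤ) := by
        simp [Ψ, Fintype.linearCombination_apply]
      rw [e] at h
      have hc : c = 0 := by
        ext j
        have := congrArg (fun z => z ⬝ᵥ v j) h
        simp only [add_dotProduct, zero_dotProduct] at this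
        rw [sum_smul_dot hv, y.2.2 j, add_zero] at this
        rcases mul_eq_zero.1 this with h' | h'
        · exact absurd h' hlam.ne'
        · exact h'
      subst hc
      have hy : (y : Fin 8 → ℤ) = 0 := by simpa using h
      ext1
      · rfl
      · exact Subtype.ext hy
    have := LinearMap.finrank_le_finrank_of_injective hΨ
    rwa [hfin, Module.finrank_fin_fun] at this
  have h2 : 8 ≤ k + n := by
    let D : (Fin 8 → ℤ) →ₗ[ℤ] (Fin k → ℤ) :=
      { toFun := fun x i => x ⬝ᵥ v i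
        map_add' := fun x y => by ext i; exact add_dotProduct _ _ _
        map_smul' := fun c x => by ext i; exact smul_dotProduct _ _ _ }
    have hΦ : Function.Injective (D.prod rN) := by
      rw [injective_iff_map_eq_zero]
      intro x h
      have hD : ∀ i, x ⬝ᵥ v i = 0 := fun i => congrFun (congrArg Prod.fst h) i
      have hR : rho lam v x = 0 := congrArg Subtype.val (congrArg Prod.snd h)
      rw [rho_apply] at hR
      simp only [hD, zero_smul, Finset.sum_const_zero, sub_zero] at hR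
      exact (smul_eq_zero.1 hR).resolve_left hlam.ne'
    have := LinearMap.finrank_le_finrank_of_injective hΦ
    rwa [hfin, Module.finrank_fin_fun] at this
  have hn : 0 < n := by omega
  have h7 : n ≤ 7 := by omega
  -- the Gram matrix
  have hdiv : ∀ a b, lam ∣ (bN a : Fin 8 → ℤ) ⬝ᵥ (bN b : Fin 8 → ℤ) := fun a b =>
    hUo _ (bN a).2.1 _ (bN b).2.1
  choose G hG using hdiv
  have hGsymm : ∀ a b, G a b = G b a := fun a b => by
    have := hG a b
    rw [dotProduct_comm, hG b a] at this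
    exact (mul_left_cancel₀ hlam.ne' this).symm
  -- the dual basis
  let Y : Fin n → Fin 8 → ℤ := fun b j => bN.coord b (rN (Pi.single j 1))
  have hY : ∀ b (u : Fin 8 → ℤ), Y b ⬝ᵥ u = bN.coord b (rN u) := by
    intro b u
    have hu : u = ∑ j, u j • (Pi.single j 1 : Fin 8 → ℤ) := by
      conv_lhs => rw [pi_eq_sum_univ u]
      refine Finset.sum_congr rfl fun i _ => ?_
      congr 1
      ext j
      simp [Pi.single_apply, eq_comm]
    conv_rhs => rw [hu]
    rw [map_sum, map_sum]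
    simp only [dotProduct, map_zsmul, smul_eq_mul, Y]
    exact Finset.sum_congr rfl fun j _ => mul_comm _ _
  have hYU : ∀ b, Y b ∈ U := by
    intro b
    refine hUd _ fun u hu => ?_
    rw [hY]
    -- `rho u = lam * (u - ∑ ((u · v i) / lam) v i)`
    have h3 : ∀ i, lam ∣ u ⬝ᵥ v i := fun i => hUo _ hu _ (hUv i)
    choose c hc using h3
    have h4 : u - ∑ i, c i • v i ∈ N := by
      rw [hN]
      refine ⟨U.sub_mem hu (U.sum_mem fun i _ => U.zsmul_mem (hUv i) _), fun j => ?_⟩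
      rw [sub_dotProduct, sum_smul_dot hv, hc j, sub_self]
    have h5 : rN u = lam • (⟨u - ∑ i, c i • v i, h4⟩ : N) := by
      apply Subtype.ext
      rw [hrN, rho_apply]
      show _ = lam • (u - ∑ i, c i • v i)
      rw [smul_sub, Finset.smul_sum]
      congr 1
      refine Finset.sum_congr rfl fun i _ => ?_
      rw [hc i, mul_smul]
    rw [h5, map_zsmul, smul_eq_mul]
    exact dvd_mul_right _ _
  have hrv : ∀ i, rN (v i) = 0 := by
    intro i
    apply Subtype.ext
    rw [hrN, rho_apply, Finset.sum_eq_single i]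
    · rw [hv i i, if_pos rfl, sub_self]; rfl
    · intro j _ hj
      rw [hv i j, if_neg (Ne.symm hj), zero_smul]
    · intro h; exact absurd (Finset.mem_univ _) h
  have hYN : ∀ b, Y b ∈ N := fun b => by
    rw [hN]
    refine ⟨hYU b, fun i => ?_⟩
    rw [hY, hrv, map_zero]
  have hrb : ∀ a, rN (bN a) = lam • bN a := by
    intro a
    apply Subtype.ext
    rw [hrN, rho_apply]
    have : ∀ i, (bN a : Fin 8 → ℤ) ⬝ᵥ v i = 0 := (bN a).2.2
    simp only [this, zero_smul, Finset.sum_const_zero, sub_zero]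
    rfl
  let H : Matrix (Fin n) (Fin n) ℤ := fun c b => bN.coord c ⟨Y b, hYN b⟩
  have hYsum : ∀ b, Y b = ∑ c, H c b • (bN c : Fin 8 → ℤ) := by
    intro b
    have := bN.sum_repr ⟨Y b, hYN b⟩
    have h6 := congrArg (fun z : N => (z : Fin 8 → ℤ)) this
    simp only [Submodule.coe_sum, Submodule.coe_smul] at h6
    exact h6.symm
  have hGH : (Matrix.of G) * H = 1 := by
    ext a b
    have h6 : (bN a : Fin 8 → ℤ) ⬝ᵥ Y b = lam * (∑ c, G a c * H c b) := by
      rw [hYsum, dotProduct_sum, Finset.mul_sum]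
      refine Finset.sum_congr rfl fun c _ => ?_
      rw [dotProduct_smul, hG, smul_eq_mul]
      ring
    have h7 : (bN a : Fin 8 → ℤ) ⬝ᵥ Y b = lam * (if a = b then 1 else 0) := by
      rw [dotProduct_comm, hY, hrb, map_zsmul, smul_eq_mul]
      congr 1
      rw [Module.Basis.coord_apply, Module.Basis.repr_self, Finsupp.single_apply]
    rw [h6] at h7
    have h8 := mul_left_cancel₀ hlam.ne' h7
    rw [Matrix.mul_apply, Matrix.one_apply]
    exact h8
  have hpsd : ((Matrix.of G).map (Int.cast : ℤ → ℝ)).PosSemidef := by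
    let B : Matrix (Fin 8) (Fin n) ℝ := fun j a => ((bN a : Fin 8 → ℤ) j : ℝ)
    have h6 := Matrix.posSemidef_conjTranspose_mul_self B
    have hl : (0 : ℝ) ≤ (lam : ℝ)⁻¹ := by positivity
    have h7 := h6.smul hl
    convert h7 using 1
    ext a b
    have hl0 : (lam : ℝ) ≠ 0 := by exact_mod_cast hlam.ne'
    rw [Matrix.map_apply, Matrix.smul_apply, Matrix.mul_apply, smul_eq_mul, eq_comm,
      inv_mul_eq_iff_eq_mul₀ hl0]
    have h8 : (((bN a : Fin 8 → ℤ) ⬝ᵥ (bN b : Fin 8 → ℤ) : ℤ) : ℝ) = ((lam * G a b : ℤ) : ℝ) := by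
      rw [hG]
    simp only [dotProduct] at h8
    push_cast at h8
    show ∑ j, star (B j a) * B j b = _
    simp only [star_trivial]
    exact h8
  have hdet : (Matrix.of G).det = 1 := by
    have h6 : (Matrix.of G).det * H.det = 1 := by rw [← det_mul, hGH, det_one]
    have h7 : IsUnit (Matrix.of G).det := IsUnit.of_mul_eq_one _ h6
    have h8 : 0 ≤ (Matrix.of G).det := by
      have h9 := hpsd.det_nonneg
      have h10 := (Int.castRingHom ℝ).map_det (Matrix.of G)
      have h11 : (((Matrix.of G).det : ℤ) : ℝ) = ((Matrix.of G).map (Int.cast : ℤ → ℝ)).det := by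
        simpa using h10
      rw [← h11] at h9
      exact_mod_cast h9
    rcases Int.isUnit_iff.1 h7 with h | h
    · exact h
    · rw [h] at h8; omega
  obtain ⟨x, hx⟩ := represents_one hn h7 (Matrix.of G) hpsd hdet
  refine ⟨∑ a, x a • (bN a : Fin 8 → ℤ), ?_, ?_⟩
  · rw [sum_dotProduct]
    have h6 : ∀ a, (x a • (bN a : Fin 8 → ℤ)) ⬝ᵥ (∑ b, x b • (bN b : Fin 8 → ℤ)) =
        lam * (x a * ∑ b, G a b * x b) := by
      intro a
      rw [smul_dotProduct, dotProduct_sum, smul_eq_mul, Finset.mul_sum, Finset.mul_sum,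
        Finset.mul_sum]
      refine Finset.sum_congr rfl fun b _ => ?_
      rw [dotProduct_smul, hG, smul_eq_mul]
      ring
    rw [Finset.sum_congr rfl fun a _ => h6 a, ← Finset.mul_sum]
    have h7 : ∑ a, x a * ∑ b, G a b * x b = x ⬝ᵥ (Matrix.of G *ᵥ x) := rfl
    rw [h7, hx, mul_one]
  · intro i
    rw [sum_dotProduct]
    refine Finset.sum_eq_zero fun a _ => ?_
    rw [smul_dotProduct, (bN a).2.2 i, smul_zero]

lemma extend_one {k : ℕ} (hk1 : 1 ≤ k) (hk8 : k < 8) (lam : ℤ) (hlam : 0 < lam)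
    (v : Fin k → Fin 8 → ℤ) (hv : IsIcube lam v) :
    ∃ u : Fin (k + 1) → Fin 8 → ℤ, IsIcube lam u ∧ ∀ i : Fin k, u i.castSucc = v i := by
  obtain ⟨w, hw, hwv⟩ := step hk1 hk8 lam hlam v hv
  refine ⟨Fin.snoc (α := fun _ => Fin 8 → ℤ) v w, ?_, fun i => by simp⟩
  intro i j
  refine Fin.lastCases ?_ (fun i => ?_) i
  · refine Fin.lastCases ?_ (fun j => ?_) j
    · simp [hw]
    · simp [hwv j, (Fin.castSucc_lt_last j).ne']
  · refine Fin.lastCases ?_ (fun j => ?_) j
    · simp [dotProduct_comm (v i) w, hwv i, (Fin.castSucc_lt_last i).ne]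
    · simp [hv i j]

/-- every `k`-icube in `ℤ^8`, `1 ≤ k ≤ 8`, extends to an `8`-icube -/
theorem extends_main (d : ℕ) : ∀ {k : ℕ} (hk1 : 1 ≤ k) (hk8 : k + d = 8) (lam : ℤ) (hlam : 0 < lam)
    (v : Fin k → Fin 8 → ℤ) (hv : IsIcube lam v),
    ∃ u : Fin 8 → Fin 8 → ℤ, IsIcube lam u ∧ ∀ i : Fin k, u (Fin.castLE (by omega) i) = v i := by
  induction d with
  | zero =>
    intro k hk1 hk8 lam hlam v hv
    obtain rfl : k = 8 := by omega
    exact ⟨v, hv, fun i => rfl⟩
  | succ d ih =>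
    intro k hk1 hk8 lam hlam v hv
    obtain ⟨u, hu, huv⟩ := extend_one hk1 (by omega) lam hlam v hv
    obtain ⟨t, ht, htu⟩ := ih (by omega) (by omega) lam hlam u hu
    refine ⟨t, ht, fun i => ?_⟩
    have := htu i.castSucc
    rw [huv] at this
    exact this

end Pool.Agent.Q56.IC
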